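import Pool.Agent.Helper94.SEL.St
import Pool.Agent.Helper48.ROK.Mx
import Pool.Agent.Helper47.FN.Lay
import Pool.Agent.Helper89.RAD.Spe
import Pool.Agent.Helper84.KR.Sel

/-! SPEED in the vocabulary of `Helper29/MX/St` and `Helper94/SEL/St`: if the total exponent of the K-labels of the window
`c` is at most `L` on all events of all extensions, then no gradient of a K-form of this window is larger than
`2 ^ (2 (L + e) n)`, and the volume in all degrees decreases at least by `M min (c' - c) (1 - L)` up to the window `c'`. -/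

set_option autoImplicit false

namespace Pool.Agent.Helper89.SPX

open Finset Filter Topology Matrix Pool.Agent.Helper69.RK Pool.Agent.Helper31.EC Pool.Agent.Helper31.EC.Sp
open Pool.Agent.Helper40.EL Pool.Agent.Helper89.LX Pool.Agent.Helper84.MT
open Pool.Agent.Helper3.LF (Mon gam)
open Pool.Agent.Helper47.FN (gam_le_GQ)
open Pool.Agent.Helper14.MC (gx vx vol_eq vx_UB)
open Pool.Agent.Helper89.RAK (Lit KC)
open Pool.Agent.Helper89.RAD (cnA dp vol_speedD)
open Pool.Agent.Helper87.NSL (KnS cndR)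
open Pool.Agent.Helper48.ROK (im_kz_ev scw_im nrm nrm_lit nrm_fc kns_im volC_res)
open Pool.Agent.Helper7.RD (volC volCO volC_eq volC_le_of volCO_le)
open Pool.Agent.Helper18.SRT (volC_deg le_volCO)
open Pool.Agent.Helper29.MX
open Pool.Agent.Helper36.AM (MCl)

noncomputable section

variable {S T : Sp} {M D : ℕ} {E : ℕ → ℕ} {ι κ : Type}

/-- no large gradients, from the volumes on events -/
theorem gam_typ [Finite κ] (hM : 1 ≤ M) {A : κ → Part S} {Q : S.VV M} {R : ∀ k, Setoid (S.F k).Ω} (hR : Lit R Q)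
    {x : ∀ k, FD (S.F k) (Mon M D)} (hx : (gaq Q D).AdfK (KC R) A x) {L : ℝ}
    (hlow : ∀ (T : Sp) (p : Pj T S) (E : ∀ k, (T.F k).Ω → Prop) (_ : 0 < ul (T.pr E))
      (y : ∀ k, FD ((Sp.im p E).F k) (Mon M D)), (gaq (Q.im p E) D).AdfK (LC.kz (S := Sp.im p E) fun k => fc (R k))
        (fun i => (A i).im p E) y → (M : ℝ) - L ≤ vol (Q.im p E) D y) (e : ℝ) (he : 0 < e) :
    Tendsto (fun k => (x k).l.T.pb (fun ω => ¬ gam (S.dl 1 k) ((x k).g ω) (Q.v k ((x k).l.p.π ω)) ≤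
      2 ^ (2 * (L + e) * (S.F k).n))) UF (𝓝 0) := by
  set B : ∀ k, ((lbS x).sp.F k).Ω → Prop := fun k (ω : (x k).l.T.Ω) =>
    ¬ gam (S.dl 1 k) ((x k).g ω) (Q.v k ((x k).l.p.π ω)) ≤ 2 ^ (2 * (L + e) * (S.F k).n) with hBdef
  have hU : UB ((lbS x).sp.pr B) := UB_pr (S := (lbS x).sp) B
  have hBk : ∀ k (ω ω' : (x k).l.T.Ω), (x k).l.T.μ ω ≠ 0 → (x k).l.T.μ ω' ≠ 0 → (x k).l.V ω ω' → (x k).l.T.Z ω ω' →
      R k ((x k).l.p.π ω) ((x k).l.p.π ω') → (B k ω ↔ B k ω') := by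
    intro k ω ω' a b c d r
    have h1 : Q.v k ((x k).l.p.π ω) = Q.v k ((x k).l.p.π ω') := hR k r
    have h2 := ((x k).meas ω ω' a b c d).1
    show (¬ _) ↔ (¬ _)
    rw [h1, h2]
  have h0 : ul ((lbS x).sp.pr B) ≤ 0 := by
    by_contra hc
    have hpos : 0 < ul ((lbS x).sp.pr B) := not_le.1 hc
    have hadm : (gaq (Q.im (lbS x).pj B) D).Adf (fun i => (A i).im (lbS x).pj B) (reS x B) := by
      rw [gaq_im]
      exact Gau.Adf.re hx.1 B hpos
    have hkz := im_kz_ev (l := lbS x) B hx.2 hBk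
    have k1 := hlow _ (lbS x).pj B hpos (reS x B) ⟨hadm, hkz⟩
    rw [vol_eq] at k1
    have k2 : L + e / 2 ≤ ul (vx (Q.im (lbS x).pj B) (reS x B)) := by
      apply const_le_ul (vx_UB hadm)
      filter_upwards [pr_half' (S := (lbS x).sp) hpos, (S.div_n_tendsto (Real.logb 2 M)).eventually_le_const he,
        (Gau.Adf_iff.mp hx.1).2 1 one_pos] with k hk hn1 hf
      have hn := (S.F k).pos
      have hpb : (x k).l.T.pb (B k) ≠ 0 := by
        have h5 : 0 < ul ((lbS x).sp.pr B) / 2 := by linarith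
        exact (lt_of_lt_of_le h5 hk).ne'
      show L + e / 2 ≤ ∑ ω, ((x k).l.T.rest (B k)).μ ω * gx Q k ((x k).l.p.π ω) ((x k).g ω)
      have e1 : ∑ ω, ((x k).l.T.rest (B k)).μ ω = 1 := ((x k).l.T.rest (B k)).ms
      have e2 : L + e / 2 = ∑ ω, ((x k).l.T.rest (B k)).μ ω * (L + e / 2) := by
        rw [← Finset.sum_mul, e1, one_mul]
      rw [e2]
      refine Finset.sum_le_sum fun ω _ => ?_
      by_cases hω : ((x k).l.T.rest (B k)).μ ω = 0
      · rw [hω, zero_mul, zero_mul]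
      · have h6 := ((x k).l.T.rest_supp (B k) ω hω).2 hpb
        have h7 := ((x k).l.T.rest_supp (B k) ω hω).1
        refine mul_le_mul_of_nonneg_left ?_ (((x k).l.T.rest (B k)).nn ω)
        have hg := (hf.1 ω h7).1
        have h8 := gam_le_GQ (S.dl 1 k) hg.pdM.1 hg.psd.2 (Q.v k ((x k).l.p.π ω)) hM
        have h9 : (2 : ℝ) ^ (2 * (L + e) * (S.F k).n) ≤ M * GQ (S.dl 1 k) ((x k).g ω) (Q.v k ((x k).l.p.π ω)) := by
          have h10 : ¬ gam (S.dl 1 k) ((x k).g ω) (Q.v k ((x k).l.p.π ω)) ≤ 2 ^ (2 * (L + e) * (S.F k).n) := h6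
          linarith [not_le.1 h10]
        have hM' : (0 : ℝ) < M := by exact_mod_cast hM
        have h11 : 0 < GQ (S.dl 1 k) ((x k).g ω) (Q.v k ((x k).l.p.π ω)) :=
          zero_lt_one.trans_le (one_le_GQ (S.dl 1 k) hg.pdM.1 hg.psd.2 _)
        have h12 := Real.logb_le_logb_of_le (b := 2) (by norm_num) (by positivity) h9
        rw [Real.logb_rpow (by norm_num) (by norm_num), Real.logb_mul hM'.ne' h11.ne'] at h12
        unfold gx
        rw [le_div_iff₀ (by positivity)]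
        rw [div_le_iff₀ hn] at hn1
        nlinarith
    linarith
  have h1 : 0 ≤ ul ((lbS x).sp.pr B) := const_le_ul hU (Eventually.of_forall fun k => (x k).l.T.pb_nonneg _)
  have h2 := ul_tendsto hU
  rw [le_antisymm h0 h1] at h2
  exact h2

theorem cnA_im (s : MSys S M E ι) (R : ∀ k, Setoid (S.F k).Ω) (c : ℝ) (p : Pj T S) (A : ∀ k, (T.F k).Ω → Prop)
    (hA : 0 < ul (T.pr A)) :
    cnA (S := Sp.im p A) (s.im p A hA) (dp (S := Sp.im p A) R) c = fun i => (cnA s (dp R) c i).im p A :=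
  funext fun i => by cases i <;> rfl

theorem ker_cell {Q : S.VV M} {k : ℕ} {ω ω' : (S.F k).Ω} (h : Q.v k ω = Q.v k ω') : Q.cellv 1 k ω = Q.cellv 1 k ω' := by
  funext i
  show ⌊Q.v k ω i / S.dl 1 k⌋ = ⌊Q.v k ω' i / S.dl 1 k⌋
  rw [h]

/-- SPEED OF THE VOLUME, one degree -/
theorem volK_speed [Finite ι] (hM : 1 ≤ M) (s : MSys S M E ι) {R : Rsl S} (hP : Pt s R) (hD : 1 ≤ D) {c c' L : ℝ}
    (h0 : 0 ≤ c) (hc1 : c < 1) (hcc : c ≤ c')
    (hL : ∀ (T : Sp) (q : Pj T S) (A : ∀ k, (T.F k).Ω → Prop) (hA : 0 < ul (T.pr A)),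
      (M : ℝ) - L ≤ volKO (s.im q A hA) R c) : volK s R D c' + M * min (c' - c) (1 - L) ≤ volK s R D c := by
  set R' := nrm R s.Q with hR'
  have h := nrm_fc (R := R) (Q := s.Q) hP
  have e1 : ∀ c : ℝ, volK s R D c = volC (KC R') (cnA s (dp R') c) s.Q D := fun c => by
    rw [volC_res h, volK_eq, cndR_eq]
  rw [e1, e1]
  obtain ⟨x, hx⟩ := (gaq s.Q D).exists_optfK (KC R') (cnA s (dp R') c)
  obtain ⟨y, hy⟩ := (gaq s.Q D).exists_optfK (KC R') (cnA s (dp R') c')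
  rw [volC_eq hx, volC_eq hy]
  refine vol_speedD s (nrm_lit R s.Q) (B0 := R') (fun k ω ω' r => ker_cell (nrm_lit R s.Q k r)) hD h0 hc1 hcc hx.1 hy ?_
  intro e he
  refine gam_typ hM (nrm_lit R s.Q) hx.1 (fun T p A hA z hz => ?_) e he
  have h1 : ∀ᶠ k in UF, fc (F := (Sp.im p A).F k) (nrm R s.Q k) = fc (F := (Sp.im p A).F k) (R k) :=
    nrm_fc (S := Sp.im p A) (R := R) (Q := (s.im p A hA).Q) (kns_im hP p A)
  have h2 : KAd (s.im p A hA) R D c z := by
    unfold KAd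
    rw [cndR_eq]
    refine (Pool.Agent.Helper48.ROK.adfK_res (S := Sp.im p A) (s := s.im p A hA) h1).mp ?_
    rw [cnA_im]
    exact hz
  exact (hL T p A hA).trans (volKO_le_of h2)

/-- SPEED OF THE VOLUME, all degrees -/
theorem volKO_speed [Finite ι] (hM : 1 ≤ M) (s : MSys S M E ι) {R : Rsl S} (hP : Pt s R) {c c' L : ℝ}
    (h0 : 0 ≤ c) (hc1 : c < 1) (hcc : c ≤ c')
    (hL : ∀ (T : Sp) (q : Pj T S) (A : ∀ k, (T.F k).Ω → Prop) (hA : 0 < ul (T.pr A)),
      (M : ℝ) - L ≤ volKO (s.im q A hA) R c) : volKO s R c' + M * min (c' - c) (1 - L) ≤ volKO s R c := by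
  rw [volKO_eq s R c]
  refine le_volCO 1 fun D hD => ?_
  rw [← volK_eq]
  have h1 := volK_speed hM s hP hD h0 hc1 hcc hL
  linarith [volKO_le_volK s R D c']

/-- SPEED OF THE TOTAL EXPONENT -/
theorem tot_speed [Finite ι] {N : ℕ} (hN : 1 ≤ N) (s : MSys S N E ι) {R : Rsl S} (hP : Pt s R) {c c' L : ℝ}
    (h0 : 0 ≤ c) (hcc : c ≤ c') (h1 : c' ≤ 1) (hL1 : L ≤ 1)
    (hL : ∀ (T : Sp) (q : Pj T S) (A : ∀ k, (T.F k).Ω → Prop) (hA : 0 < ul (T.pr A)),
      Pool.Agent.Helper94.SEL.tot (s.im q A hA) R c ≤ L) :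
    Pool.Agent.Helper94.SEL.tot s R c + N * min (c' - c) (1 - L) ≤ Pool.Agent.Helper94.SEL.tot s R c' := by
  rcases eq_or_lt_of_le (hcc.trans h1) with hc | hc
  · have e : c' = c := by linarith
    rw [e, sub_self, min_eq_left (by linarith), mul_zero, add_zero]
  · have h2 := volKO_speed hN s hP h0 hc hcc (L := L) fun T q A hA => by
      have h3 := hL T q A hA
      unfold Pool.Agent.Helper94.SEL.tot at h3
      linarith
    unfold Pool.Agent.Helper94.SEL.tot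
    linarith

/-- the total exponent is the exponent of all coordinates -/
theorem tot_num {N : ℕ} [Finite ι] (s : MSys S N E ι) (R : Rsl S) (c : ℝ) :
    Pool.Agent.Helper94.SEL.tot s R c = Pool.Agent.Helper94.SEL.num s R le_rfl c := by
  have h1 : Pool.Agent.Helper94.SEL.num s R le_rfl c = Pool.Agent.Helper84.KR.An s R N c := by
    rw [Pool.Agent.Helper84.KR.An_of s R le_rfl]
    rfl
  rw [h1, Pool.Agent.Helper84.KR.An_top]
  rfl

/-- for rigid pairs (`BK` of helper94) -/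
theorem BK_speed {C : MCl (M + 1)} {v g r e0 : ℕ} {b0 : ℝ} {s : MSys S (M + 1) (lin g) (Fin r)} {R : Rsl S}
    (hs : Pool.Agent.Helper94.SEL.BK C v g r e0 b0 S s R) {c c' : ℝ} (h0 : 0 ≤ c) (hcc : c ≤ c')
    (h1 : c' ≤ 1) (hb : c < b0) (hc : Pool.Agent.Helper94.SEL.tot s R c ≤ 1) :
    Pool.Agent.Helper94.SEL.tot s R c + (M + 1) * min (c' - c) (1 - Pool.Agent.Helper94.SEL.tot s R c) ≤
      Pool.Agent.Helper94.SEL.tot s R c' := by
  have h2 := tot_speed (N := M + 1) (Nat.le_add_left 1 M) s hs.cl.2.1 h0 hcc h1 hc fun T q A hA => by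
    rw [tot_num, tot_num]
    exact (hs.rig T q A hA c h0 hb _ le_rfl).le
  push_cast at h2
  exact h2

end

end Pool.Agent.Helper89.SPX
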